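import Pool.Agent.R40.Main

/-!
# Gaps between successive records of `S(n)√n` on odd primitive non-deficient numbers

Full answer to Q1 of `MP_40f968_nt`: the increments `g(b_{j+1}) - g(b_j)` are unbounded.
-/

set_option autoImplicit false

namespace Pool.Agent.Results.MP_40f968_nt.UnboundedIncrements

/-- `n` is non-deficient: `n ≥ 1` and `σ(n) ≥ 2n`. -/
def NonDeficient (n : ℕ) : Prop := 0 < n ∧ 2 * n ≤ ∑ e ∈ n.divisors, e

/-- `n` is primitive non-deficient: it is non-deficient and no proper divisor of it is. -/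
def PrimitiveNonDeficient (n : ℕ) : Prop :=
  NonDeficient n ∧ ∀ d : ℕ, d ∣ n → d < n → ¬ NonDeficient d

/-- `g(n) = (n/φ(n) - 2) √n`. -/
noncomputable def g (n : ℕ) : ℝ := ((n : ℝ) / (Nat.totient n : ℝ) - 2) * Real.sqrt (n : ℝ)

/-- `n` lies in `B₂`: it is odd primitive non-deficient and `g(k) < g(n)` for every odd
primitive non-deficient `k < n`. -/
def InB2 (n : ℕ) : Prop :=
  Odd n ∧ PrimitiveNonDeficient n ∧
    ∀ k : ℕ, k < n → Odd k → PrimitiveNonDeficient k → g k < g n

lemma prim_iff (n : ℕ) : PrimitiveNonDeficient n ↔ Pool.Agent.R40.PND n := by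
  unfold PrimitiveNonDeficient NonDeficient Pool.Agent.R40.PND
  constructor
  · rintro ⟨⟨h1, h2⟩, h3⟩
    refine ⟨h1, h2, fun d hd hdn => ?_⟩
    have h4 := h3 d hd hdn
    have h5 : 0 < d := Nat.pos_of_dvd_of_pos hd h1
    by_contra hcon
    push Not at hcon
    exact h4 ⟨h5, hcon⟩
  · rintro ⟨h1, h2, h3⟩
    refine ⟨⟨h1, h2⟩, fun d hd hdn hnd => ?_⟩
    have := h3 d hd hdn
    omega

lemma inB2_eq : InB2 = Pool.Agent.R40.B2 := by
  funext n
  apply propext
  unfold InB2 Pool.Agent.R40.B2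
  simp only [prim_iff]
  exact Iff.rfl

/-- `B₂` is infinite and, writing `b_j` for its elements in increasing order, the increments
`g(b_{j+1}) - g(b_j)` are unbounded. -/
theorem result : {n : ℕ | InB2 n}.Infinite ∧
    ∀ C : ℝ, ∃ j : ℕ, C < g (Nat.nth InB2 (j + 1)) - g (Nat.nth InB2 j) := by
  refine ⟨?_, ?_⟩
  · have h := Pool.Agent.R40.records_infinite
    rw [← inB2_eq] at h
    exact h
  · intro C
    obtain ⟨j, hj⟩ := Pool.Agent.R40.main_unbounded C
    rw [← inB2_eq] at hj
    exact ⟨j, hj⟩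

end Pool.Agent.Results.MP_40f968_nt.UnboundedIncrements
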